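import Pool.Agent.Work.MP_25ef30_pf.Main

/-!
# Plane fields on homotopy spheres are homotopic to integrable ones (MP_25ef30_gt)

Relative to the published theorems `TopologyFacts`, `FiniteOdd` and `FoliationFacts`
(`Pool/Agent/Work/MP_25ef30_pf/Facts.lean`) the question Q1 has a positive answer.

IDEA.  Let `n` be odd, `q ≥ 2` (the other cases are published).  Every class of the finite group
`π_n(B SO(q))` lifts to Haefliger's `BΓ_q^+`: by Jackowski, McClure and Oliver `B SO(q)` is, in
homology with coefficients in `ℤ/ℓ`, a homotopy colimit of the `B P`, `P` extensions of finite groups
by tori; by Milnor these may be replaced by the `B P^δ`; the homotopy colimit of the `B P^δ` maps to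
`B SO(q)^δ`, so to `BΓ_q^+`.  So `BΓ_q^+ → B SO(q)` has a section after localization at `ℤ/ℓ`, and the
elements of order a power of `ℓ` lift.
-/

set_option autoImplicit false

open Pool.PF

namespace Pool.Agent.Results.MP_25ef30_gt.IntegrableRelPublished

/-- Relative to the published theorems `TopologyFacts`, `FiniteOdd` and `FoliationFacts`: every
plane field on every closed smooth manifold homeomorphic to a sphere is homotopic to an integrable
one. -/
theorem result (K : TopologyFacts) (F : FiniteOdd) (L : FoliationFacts) : Q1 := answer K F L

end Pool.Agent.Results.MP_25ef30_gt.IntegrableRelPublished
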