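import Pool.Agent.Work.MP_25ef30_vb.Main

/-!
# Plane fields with rationally trivial normal bundle (MP_25ef30_gt)

Relative to the published theorems `LiftingFacts` and `ManifoldFacts`
(`Pool/Agent/Work/MP_25ef30_vb/Facts.lean`, `Main.lean`): maps to `B SO(q)` with vanishing rational
Pontryagin classes and Euler class lift to every simply connected space between `B SO(q)^δ` and
`B SO(q)`, in particular to Haefliger's classifying space; so plane fields of codimension `q ≥ 2` on
closed manifolds (any dimension, any fundamental group) whose normal bundle has vanishing rational
Pontryagin classes and Euler class are homotopic to integrable ones, in particular all coorientable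
ones if the rational homology of the manifold vanishes in the degrees `4 i`, `0 < 2 i < q`, and, for
`q` even, `q`.

IDEA.  A rationally trivial map factors through the homotopy fibre `W` of the rationalization, which
is rationally acyclic.  By the arithmetic square maps from `W` to simply connected spaces are
families of maps to the localizations at the primes, and there `X → B SO(q)` has sections by the
theorems of Jackowski, McClure, Oliver and Milnor.
-/

set_option autoImplicit false

open Pool.PF

namespace Pool.Agent.Results.MP_25ef30_gt.RationallyTrivialRelPublished

/-- Relative to the published theorems `LiftingFacts` and `ManifoldFacts`: lifting of rationally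
trivial maps, and integrability up to homotopy of plane fields with rationally trivial normal
bundle and of coorientable plane fields on closed manifolds with vanishing rational homology. -/
theorem result (K : LiftingFacts) (L : ManifoldFacts) :
    (∀ q : ℕ, 2 ≤ q → ∀ (X : SS) (b : Between q X), SimplyConnectedSpace (Rl X) →
      ∀ (M : SS) (f : C(Rl M, Rl (BG (SO q)))), RatTrivial f →
        ∃ g : C(Rl M, Rl X), (b.ν.comp g).Homotopic f) ∧
    (∀ p q : ℕ, 2 ≤ q → ∀ M : Mfd (p + q), M.Closed →
      ∀ (ξ : PlaneField M p) (f : C(M.X, Rl (BG (SO q)))), ξ.Classifies f → RatTrivial f →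
        ∃ η : PlaneField M p, η.Integrable ∧ ξ.Homotopic η) ∧
    ∀ p q : ℕ, 2 ≤ q → ∀ M : Mfd (p + q), M.Closed →
      (∀ i : ℕ, 1 ≤ i → 2 * i < q → HQZero (4 * i) M.X) → (Even q → HQZero q M.X) →
      ∀ ξ : PlaneField M p, ξ.Coorientable q →
        ∃ η : PlaneField M p, η.Integrable ∧ ξ.Homotopic η :=
  ⟨fun _ hq X b hX M f hf => rational_lifting K hq X b hX M f hf,
    fun p q hq M hM ξ f hf hn => rationally_trivial K L p q hq M hM ξ f hf hn,
    fun p q hq M hM h4 he ξ hξ => vanishing_homology K L p q hq M hM h4 he ξ hξ⟩

end Pool.Agent.Results.MP_25ef30_gt.RationallyTrivialRelPublished
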