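import Pool.Agent.Work.MP_25ef30_pf.Main

/-!
# Torsion in the homotopy groups of Haefliger's classifying space (MP_25ef30_gt)

Relative to the published theorems `TopologyFacts` and `FinGenBSO`
(`Pool/Agent/Work/MP_25ef30_pf/Facts.lean`): if `X` is simply connected and `B SO(q)^δ → B SO(q)`
factors through `X`, in particular if `X` is Haefliger's classifying space of oriented structures
of codimension `q`, then all elements of finite order of `π_n(B SO(q))` come from `π_n(X)`.

IDEA.  By Jackowski, McClure and Oliver `B SO(q)` is, in homology with coefficients in `ℤ/ℓ`, a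
homotopy colimit of the `B P`, `P` extensions of finite groups by tori; by Milnor these may be
replaced by the `B P^δ`; the homotopy colimit of the `B P^δ` maps to `B SO(q)^δ`, so to `X`.  So
`X → B SO(q)` has a section after localization at `ℤ/ℓ`, and the elements of order a power of `ℓ`
lift.
-/

set_option autoImplicit false

open Pool.PF

namespace Pool.Agent.Results.MP_25ef30_gt.TorsionLiftsRelPublished

/-- Relative to the published theorems `TopologyFacts` and `FinGenBSO`: for `q ≥ 2` and every simply
connected `X` between `B SO(q)^δ` and `B SO(q)` all elements of finite order of `π_n(B SO(q))`,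
`n ≥ 2`, are in the image of `π_n(X)`. -/
theorem result (K : TopologyFacts) (F : FinGenBSO) : ∀ q : ℕ, 2 ≤ q → ∀ (X : SS) (b : Between q X),
    SimplyConnectedSpace (Rl X) → ∀ m : ℕ, b.TorsionLifts m :=
  fun q hq X b hX m => torsion_lifting K hq X b hX (F q hq m)

end Pool.Agent.Results.MP_25ef30_gt.TorsionLiftsRelPublished
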